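import Pool.Agent.X96.AX.Fel3

/-!
Axisymmetric Navier-Stokes flows with swirl: the inflow condition `ρ u_ρ ≥ -κ(ρ) ν`, where `κ` is a
function of the distance `ρ` to the axis such that the diffusion with the drift `(κ(ρ) - 1) ν / ρ`
reaches the axis (Feller's test: its scale function `ψ` is finite at the axis). Then the
circulation is at most a multiple of `ψ(ρ)`, with explicit constants. The function `κ` may tend to
the critical value `2` at the axis: for `ρ u_ρ ≥ -2 ν + a ν / log (L / ρ)`, `a > 1`, the circulation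
is `O((log (1 / ρ)) ^ (1 - a))`. Ancient solutions with bounded circulation have no swirl if, for
each `δ > 0`, such a condition holds at the points with `|Γ| > δ` and `ψ` is infinite at infinity.

`V = Fin 3 → ℝ` with the maximum norm. See the claim file for the definitions.
-/

open MeasureTheory Set Metric Filter Topology

namespace Pool.Agent.Results.MP_09540e_an.FellerInflow

open H459R3.NS W221.NS Pool.Agent.TH305.AX

/-- The derivative `exp (∫_ρ^1 (κ(s) - 1) / s ds)` of the scale function. -/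
noncomputable def E (κ : ℝ → ℝ) (ρ : ℝ) : ℝ := Real.exp (∫ s in ρ..1, (κ s - 1) / s)

/-- The scale function `ψ(ρ) = ∫_0^ρ E`. -/
noncomputable def ψ (κ : ℝ → ℝ) (ρ : ℝ) : ℝ := ∫ s in (0 : ℝ)..ρ, E κ s

/-- `κ ≥ 1` is a continuous function on `(0, ∞)`, and its scale function is finite at `0`. -/
def Feller (κ : ℝ → ℝ) : Prop :=
  ContinuousOn κ (Ioi 0) ∧ (∀ ρ > 0, 1 ≤ κ ρ) ∧ ∀ r > 0, IntervalIntegrable (E κ) volume 0 r

/-- Let `Γ = circ (u t)` be the circulation and `ρ = √(sg x)` the distance to the axis. In the first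
two parts `(u, p)` is a smooth axisymmetric solution of the Navier-Stokes equations with viscosity
`ν` on `[0, T) × ℝ³`, `u` is bounded on `[0, T'] × ℝ³` for each `T' < T`, `|Γ| ≤ M` on
`[0, T) × {ρ ≤ R}`, and `δ ≥ 0`.

First, let `κ` satisfy Feller's test at `0`, and let `ρ u_ρ ≥ -κ(ρ) ν` at all points with
`0 < ρ < R` and `|Γ| > δ`. Then `|Γ(t, x)| ≤ δ + 2 M ψ(ρ) / ψ(r)` for `ρ ≤ r ≤ R` and
`ψ(r)² ≤ 8 ν t E(r)²`.

Second, let `a > 1`, `R ≤ L e^{-a}`, and let `ρ u_ρ ≥ -2 ν + a ν / log (L / ρ)` at all points with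
`0 < ρ < R` and `|Γ| > δ`. Then `|Γ(t, x)| ≤ δ + 2 M (log (L / r) / log (L / ρ)) ^ (a - 1)` for
`0 < ρ ≤ r ≤ R` and `(r log (L / r) / (a - 1))² ≤ 8 ν t`.

Third, let `u` be an ancient solution, on `(-∞, 0) × ℝ³`, in the same class from each time on, with
`|Γ| ≤ M`. If for each `δ > 0` there is a `κ` which satisfies Feller's test at `0`, with
`ψ(r) → ∞` as `r → ∞`, such that `ρ u_ρ ≥ -κ(ρ) ν` at all points with `|Γ| > δ`, then `Γ = 0`. -/
theorem result (ν : ℝ) (hν : 0 < ν) :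
    (∀ (T : ℝ) (u : ℝ → V → V) (p : ℝ → V → ℝ), BSol ν T u p → ∀ (R M δ : ℝ), 0 ≤ δ → 0 ≤ M →
      (∀ t ∈ Ico 0 T, ∀ x, sg x ≤ R ^ 2 → |circ (u t) x| ≤ M) →
      (∀ κ : ℝ → ℝ, Feller κ →
        (∀ t ∈ Ioo 0 T, ∀ x, 0 < sg x → sg x < R ^ 2 → δ < |circ (u t) x| →
          -(κ √(sg x) * ν) ≤ x 0 * u t x 0 + x 1 * u t x 1) →
        ∀ r, 0 < r → r ≤ R → ∀ t ∈ Ioo 0 T, ψ κ r ^ 2 ≤ 8 * ν * t * E κ r ^ 2 →
        ∀ x, sg x ≤ r ^ 2 → |circ (u t) x| ≤ δ + 2 * M * (ψ κ √(sg x) / ψ κ r)) ∧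
      ∀ L a : ℝ, 0 < L → 1 < a → R ≤ L * Real.exp (-a) →
        (∀ t ∈ Ioo 0 T, ∀ x, 0 < sg x → sg x < R ^ 2 → δ < |circ (u t) x| →
          -(2 * ν) + a * ν / Real.log (L / √(sg x)) ≤ x 0 * u t x 0 + x 1 * u t x 1) →
        ∀ r, 0 < r → r ≤ R → ∀ t ∈ Ioo 0 T, (r * Real.log (L / r) / (a - 1)) ^ 2 ≤ 8 * ν * t →
        ∀ x, 0 < sg x → sg x ≤ r ^ 2 →
          |circ (u t) x| ≤ δ + 2 * M * (Real.log (L / r) / Real.log (L / √(sg x))) ^ (a - 1)) ∧
    ∀ (u : ℝ → V → V) (p : ℝ → V → ℝ),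
      (∀ t₀ < 0, BSol ν (-t₀) (fun t => u (t₀ + t)) (fun t => p (t₀ + t))) →
      ∀ M : ℝ, (∀ t < 0, ∀ x, |circ (u t) x| ≤ M) →
      (∀ δ > 0, ∃ κ : ℝ → ℝ, Feller κ ∧ Tendsto (ψ κ) atTop atTop ∧
        ∀ t < 0, ∀ x, 0 < sg x → δ < |circ (u t) x| →
          -(κ √(sg x) * ν) ≤ x 0 * u t x 0 + x 1 * u t x 1) →
      ∀ t < 0, ∀ x, circ (u t) x = 0 := by
  refine ⟨fun T u p h R M δ hδ hM hMb => ⟨?_, ?_⟩, ?_⟩
  · intro κ hκ hcond r hr hrR t ht htr x hx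
    have hrR2 : r ^ 2 ≤ R ^ 2 := by gcongr
    have hw : Pool.Agent.X96.AX.Wgt r κ (E κ) :=
      Pool.Agent.X96.AX.scale_wgt (R := r + 2) hr (by linarith) one_pos (by linarith)
        (hκ.1.mono fun s hs => hs.1) (fun ρ hρ => hκ.2.1 ρ hρ.1) (hκ.2.2 r hr)
    exact Pool.Agent.X96.AX.feller_time hν h hδ hM hw
      (fun s hs y hy => hMb s hs y (hy.trans hrR2))
      (fun s hs y hy hy2 hy3 => hcond s hs y hy (hy2.trans_le hrR2) hy3) ht
      (by
        have e : 8 * ν * E κ r ^ 2 * t = 8 * ν * t * E κ r ^ 2 := by ring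
        rw [e]
        exact htr) hx
  · intro L a hL ha hR hcond r hr hrR t ht htr x hx0 hx
    exact Pool.Agent.X96.AX.feller_log hν h hL ha hR hδ hM hMb hcond hr hrR ht htr hx0 hx
  · intro u p h M hM hc
    refine Pool.Agent.X96.AX.feller_ancient hν h hM fun δ hδ => ?_
    obtain ⟨κ, h1, h2, h3⟩ := hc δ hδ
    exact ⟨κ, h1.1, h1.2.1, h1.2.2, h2, h3⟩

end Pool.Agent.Results.MP_09540e_an.FellerInflow
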