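import Pool.Agent.X96.AT.Fel2

/-!
Axisymmetric Navier-Stokes flows with swirl: a lower bound `ρ u_ρ ≥ -2 + a / log (L / ρ) - β(t) ρ`
with `a > 3` and `β` in `L²` in time excludes a blow-up. Only inflow is restricted, only near the
axis, and only at the points at which the circulation `Γ` is not smaller than a power of a logarithm
of the distance `ρ` to the axis and `|Γ|` attains its maximum over the closed cylinder of radius `ρ`
around the axis.

`V = Fin 3 → ℝ` with the maximum norm. See the claim file for the definitions.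
-/

open MeasureTheory Set Metric Filter Topology

namespace Pool.Agent.Results.MP_09540e_an.FellerRegularity

open H459R3.NS W221.NS Pool.Agent.TH305.AX

/-- `f` is continuous in space, bounded and square integrable, uniformly for `t ∈ S`. -/
def Ub (S : Set ℝ) (f : ℝ → V → ℝ) : Prop :=
  ∃ C : ℝ, ∀ t ∈ S, Continuous (f t) ∧ (∀ x, |f t x| ≤ C) ∧ Integrable (fun x => f t x ^ 2) ∧
    ∫ x, f t x ^ 2 ≤ C

/-- The same for the spatial derivatives of order at most `n`. -/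
def Hn : ℕ → Set ℝ → (ℝ → V → ℝ) → Prop
  | 0, S, f => Ub S f
  | n + 1, S, f => Ub S f ∧ ∀ j, Hn n S fun t => pd j (f t)

/-- The points at which the inflow is restricted: `|Γ| > N (log (L / ρ)) ^ (-α)`, `|Γ|` is maximal
in the closed cylinder of radius `ρ` around the axis, and `Γ ∂_ρ Γ > 0`. -/
def Ch (N L α : ℝ) (v : V → V) (x : V) : Prop :=
  N * Real.log (L / √(sg x)) ^ (-α) < |circ v x| ∧ (∀ y, sg y ≤ sg x → |circ v y| ≤ |circ v x|) ∧
    0 < circ v x * (x 0 * pd 0 (circ v) x + x 1 * pd 1 (circ v) x)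

lemma Ub.hb {S : Set ℝ} {f : ℝ → V → ℝ} (h : Ub S f) :
    Pool.Agent.X96.AR.Bd S f ∧ Pool.Agent.X96.AR.B2 S f := by
  obtain ⟨C, hC⟩ := h
  exact ⟨⟨max C 0, le_max_right _ _, fun t ht => ⟨(hC t ht).1, fun x =>
      ((hC t ht).2.1 x).trans (le_max_left _ _)⟩⟩,
    ⟨max C 0, le_max_right _ _, fun t ht => ⟨⟨(hC t ht).1, (hC t ht).2.2.1⟩,
      (hC t ht).2.2.2.trans (le_max_left _ _)⟩⟩⟩

lemma Hn.hb : ∀ {n : ℕ} {S : Set ℝ} {f : ℝ → V → ℝ}, Hn n S f → Pool.Agent.X96.AR.HB n S f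
  | 0, _, _, h => Ub.hb h
  | _ + 1, _, _, h => ⟨Ub.hb h.1, fun j => Hn.hb (h.2 j)⟩

/-- Let `(u, p)` be a smooth axisymmetric solution of the Navier-Stokes equations with viscosity `1`
on `[0, T) × ℝ³` such that all spatial derivatives of `u`, and those of `p` of order at most one, are
bounded and square integrable, uniformly on compact subintervals of `(0, T)`; `Γ = circ (u t)` is
the circulation. Let `0 ≤ T₁ < T`, `a > 3`, `α > 2`, `N ≥ 0`, `0 < R < L`, and let `β ≥ 0` be a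
continuous function on `[T₁, T)` with `∫_s^t β² ≤ B`. If
`ρ u_ρ ≥ -2 + a / log (L / ρ) - β(t) ρ` for `T₁ < t < T` at all points with `0 < ρ < R` and
`|Γ| > N (log (L / ρ)) ^ (-α)`, `|Γ(t, x)| = max |Γ(t, ·)|` over the closed cylinder of radius `ρ`,
`Γ ∂_ρ Γ > 0`, then `u` is bounded on `[0, T) × ℝ³`. -/
theorem result : ∀ (T : ℝ) (u : ℝ → V → V) (p : ℝ → V → ℝ), BSol 1 T u p →
    (∀ a b : ℝ, 0 < a → b < T → (∀ i n, Hn n (Icc a b) fun t x => u t x i) ∧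
      Hn 1 (Icc a b) p) →
    ∀ (T₁ a α N L R B : ℝ) (β : ℝ → ℝ), 0 ≤ T₁ → T₁ < T → 3 < a → 2 < α → 0 ≤ N → 0 < R → R < L →
    ContinuousOn β (Ico T₁ T) → (∀ t ∈ Ico T₁ T, 0 ≤ β t) →
    (∀ s t, T₁ ≤ s → s ≤ t → t < T → ∫ r in s..t, β r ^ 2 ≤ B) →
    (∀ t ∈ Ioo T₁ T, ∀ x, 0 < sg x → sg x < R ^ 2 → Ch N L α (u t) x →
      -2 + a / Real.log (L / √(sg x)) - β t * √(sg x) ≤ x 0 * u t x 0 + x 1 * u t x 1) →
    ∃ U : ℝ, ∀ t ∈ Ico 0 T, ∀ x, ‖u t x‖ ≤ U := by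
  intro T u p h hn T₁ a α N L R B β hT₁ hT₁T ha hα hN hR hRL hβ hβ0 hβB hcond
  exact Pool.Agent.X96.AT.regF ⟨⟨h, fun a b ha hb i n => ((hn a b ha hb).1 i n).hb⟩,
    fun a b ha hb => (hn a b ha hb).2.hb⟩ hT₁ hT₁T ha hα hN hR hRL hβ hβ0 hβB
    fun t ht x hx hx2 hx3 hx4 => hcond t ht x hx hx2 ⟨hx3, hx4.2.2, hx4.2.1⟩

end Pool.Agent.Results.MP_09540e_an.FellerRegularity
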