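import Pool.Agent.X96.AX.Mor5

/-!
Axisymmetric Navier-Stokes flows with swirl: a one-sided bound `u_ρ ≥ -κ ν / ρ - β(t)` of the radial
velocity alone, with `κ < 2` and with a function `β` of time in the critical Morrey class
`∫_s^t β^q ≤ C ν^{q/2} (t - s)^{1 - q/2}` with an arbitrary constant `C`, implies a scale invariant
Hoelder estimate of the circulation at the axis, with constants which depend on `q`, `κ`, `C` only.
Ancient solutions with bounded circulation which satisfy such a condition have no swirl.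

The main point is a barrier which moves with the inflow: in terms of `y = (ρ²)^a`, `a = 1 - q/2`, the
natural scale of a Bessel process, it is a solution of a parabolic inequality shifted by the
integral of a multiple of `β^q`. Outside of a thin neighbourhood of the axis the shift compensates
the drift `β`, and inside of it the drift is absorbed by the singular term.

`V = Fin 3 → ℝ` with the maximum norm. See the claim file for the definitions.
-/

open MeasureTheory Set Metric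

namespace Pool.Agent.Results.MP_09540e_an.MorreyInflow

open H459R3.NS W221.NS Pool.Agent.TH305.AX

/-- Let `Γ = circ (u t)` be the circulation and `ρ = √(sg x)` the distance to the axis.

First, let `1 ≤ q < 2`, `κ < q` (or `κ ≤ q = 1`) and `C ≥ 0`. There is a `γ > 0`, depending on
`q`, `κ`, `C` only, with the following property. Let `(u, p)` be a smooth axisymmetric solution of
the Navier-Stokes equations with viscosity `ν` on `[0, T) × ℝ³`, `u` bounded on `[0, T'] × ℝ³` for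
each `T' < T`, let `|Γ| ≤ M` on `[0, T) × {ρ ≤ R}`, and let `δ ≥ 0`. Let `β ≥ 0` be a continuous
function of `t ∈ [0, T)` with `∫_s^t β^q ≤ C ν^{q/2} (t - s)^{1 - q/2}` for all `s < t`. If
`ρ u_ρ ≥ -κ ν - β(t) ρ` at all points with `0 < ρ < R` and `|Γ| > δ`, then
`|Γ(t, x)| ≤ δ + 2 M (ρ / min (R, √(ν t)))^γ` for `0 < t < T` and `ρ ≤ R`.

Second, let `u` be an ancient solution, on `(-∞, 0) × ℝ³`, in the same class from each time on, with
`|Γ| ≤ M`. If for each `δ > 0` there are `q`, `κ`, `C` and `β` as before, on `(-∞, 0)`, such that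
`ρ u_ρ ≥ -κ ν - β(t) ρ` at all points with `|Γ| > δ`, then `Γ = 0`. -/
theorem result :
    (∀ q κ C : ℝ, 1 ≤ q → q < 2 → (κ < q ∨ q = 1 ∧ κ ≤ 1) → 0 ≤ C → ∃ γ : ℝ, 0 < γ ∧
      ∀ (ν T : ℝ) (u : ℝ → V → V) (p : ℝ → V → ℝ), 0 < ν → BSol ν T u p →
      ∀ (R M δ : ℝ) (β : ℝ → ℝ), 0 < R → 0 ≤ δ → 0 ≤ M → ContinuousOn β (Ico 0 T) →
      (∀ t ∈ Ico 0 T, 0 ≤ β t) →
      (∀ s t, 0 ≤ s → s ≤ t → t < T →
        ∫ r in s..t, β r ^ q ≤ C * ν ^ (q / 2) * (t - s) ^ (1 - q / 2)) →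
      (∀ t ∈ Ico 0 T, ∀ x, sg x ≤ R ^ 2 → |circ (u t) x| ≤ M) →
      (∀ t ∈ Ioo 0 T, ∀ x, 0 < sg x → sg x < R ^ 2 → δ < |circ (u t) x| →
        -(κ * ν) - β t * √(sg x) ≤ x 0 * u t x 0 + x 1 * u t x 1) →
      ∀ t ∈ Ioo 0 T, ∀ x, sg x ≤ R ^ 2 →
        |circ (u t) x| ≤ δ + 2 * M * (√(sg x) / min R √(ν * t)) ^ γ) ∧
    ∀ (ν : ℝ) (u : ℝ → V → V) (p : ℝ → V → ℝ), 0 < ν →
      (∀ t₀ < 0, BSol ν (-t₀) (fun t => u (t₀ + t)) (fun t => p (t₀ + t))) →
      ∀ M : ℝ, (∀ t < 0, ∀ x, |circ (u t) x| ≤ M) →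
      (∀ δ > 0, ∃ (q κ C : ℝ) (β : ℝ → ℝ), 1 ≤ q ∧ q < 2 ∧ (κ < q ∨ q = 1 ∧ κ ≤ 1) ∧
        0 ≤ C ∧ ContinuousOn β (Iio 0) ∧ (∀ t < 0, 0 ≤ β t) ∧
        (∀ s t, s ≤ t → t < 0 →
          ∫ r in s..t, β r ^ q ≤ C * ν ^ (q / 2) * (t - s) ^ (1 - q / 2)) ∧
        ∀ t < 0, ∀ x, 0 < sg x → δ < |circ (u t) x| →
          -(κ * ν) - β t * √(sg x) ≤ x 0 * u t x 0 + x 1 * u t x 1) →
      ∀ t < 0, ∀ x, circ (u t) x = 0 :=
  ⟨fun _ _ _ hq hq2 hκ hC => Pool.Agent.X96.AX.holderM hq hq2 hκ hC,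
    fun _ _ _ hν h _ hM hc => Pool.Agent.X96.AX.liouvilleM hν h hM hc⟩

end Pool.Agent.Results.MP_09540e_an.MorreyInflow
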