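import Pool.Agent.X96.AT.Prs2

/-!
Axisymmetric Navier-Stokes flows with swirl: a one-sided upper bound of the radial derivative of the
pressure near the axis, with constant `1` in front of the centrifugal term `u_θ² / ρ`, excludes a
blow-up. The pressure is only restricted where the inflow is large, increases with the distance `ρ`
to the axis and is maximal in the closed cylinder of radius `ρ` around the axis.

`V = Fin 3 → ℝ` with the maximum norm. See the claim file for the definitions.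
-/

open MeasureTheory Set Metric Filter Topology

namespace Pool.Agent.Results.MP_09540e_an.PressureRegularity

open H459R3.NS W221.NS Pool.Agent.TH305.AX

/-- `f` is continuous in space, bounded and square integrable, uniformly for `t ∈ S`. -/
def Ub (S : Set ℝ) (f : ℝ → V → ℝ) : Prop :=
  ∃ C : ℝ, ∀ t ∈ S, Continuous (f t) ∧ (∀ x, |f t x| ≤ C) ∧ Integrable (fun x => f t x ^ 2) ∧
    ∫ x, f t x ^ 2 ≤ C

/-- The same for the spatial derivatives of order at most `n`. -/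
def Hn : ℕ → Set ℝ → (ℝ → V → ℝ) → Prop
  | 0, S, f => Ub S f
  | n + 1, S, f => Ub S f ∧ ∀ j, Hn n S fun t => pd j (f t)

/-- `ℓ(h) = log (2 + |log h|)`. -/
noncomputable def ℓ (h : ℝ) : ℝ := Real.log (2 + |Real.log h|)

/-- `w = -ρ u_ρ`, positive at the points where the fluid moves towards the axis. -/
def w (v : V → V) (x : V) : ℝ := -(x 0 * v x 0 + x 1 * v x 1)

/-- `ρ ∂_ρ f`. -/
noncomputable def rd (f : V → ℝ) (x : V) : ℝ := x 0 * pd 0 f x + x 1 * pd 1 f x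

lemma Ub.hb {S : Set ℝ} {f : ℝ → V → ℝ} (h : Ub S f) :
    Pool.Agent.X96.AR.Bd S f ∧ Pool.Agent.X96.AR.B2 S f := by
  obtain ⟨C, hC⟩ := h
  exact ⟨⟨max C 0, le_max_right _ _, fun t ht => ⟨(hC t ht).1, fun x =>
      ((hC t ht).2.1 x).trans (le_max_left _ _)⟩⟩,
    ⟨max C 0, le_max_right _ _, fun t ht => ⟨⟨(hC t ht).1, (hC t ht).2.2.1⟩,
      (hC t ht).2.2.2.trans (le_max_left _ _)⟩⟩⟩

lemma Hn.hb : ∀ {n : ℕ} {S : Set ℝ} {f : ℝ → V → ℝ}, Hn n S f → Pool.Agent.X96.AR.HB n S f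
  | 0, _, _, h => Ub.hb h
  | _ + 1, _, _, h => ⟨Ub.hb h.1, fun j => Hn.hb (h.2 j)⟩

/-- Let `1 ≤ q < 2` and `0 ≤ κ < q`, or `0 ≤ κ ≤ q = 1`. There is a `c₀ > 0`, depending on `q`, `κ`
only, with the following property. Let `(u, p)` be a smooth axisymmetric solution of the
Navier-Stokes equations with viscosity `1` on `[0, T) × ℝ³` such that all spatial derivatives of `u`,
and those of `p` of order at most one, are bounded and square integrable, uniformly on compact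
subintervals of `(0, T)`; `Γ = circ (u t)` is the circulation and `w = -ρ u_ρ`. Let `0 ≤ T₁ < T`,
`A ≥ 0`, `R > 0`, and let `c ≥ 0` be a continuous function on `[T₁, T)` with derivative `c'` on
`(T₁, T)` and `∫_s^t c^q ≤ (A + c₀ ℓ(t - s)^(1 - q/2)) (t - s)^(1 - q/2)` for `s < t`. If
`ρ ∂_ρ p ≤ (Γ² + w (w - ρ ∂_ρ w) + ρ ∂_ρ w) / ρ² + c'(t) ρ` for `T₁ < t < T` at all points with
`0 < ρ < R` and `ρ ∂_ρ w > c(t) ρ`, `w > κ + ρ ∂_ρ w`, `w(t, x) = max w(t, ·)` over the closed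
cylinder of radius `ρ`, then `u` is bounded on `[0, T) × ℝ³`. -/
theorem result : ∀ q κ : ℝ, 1 ≤ q → q < 2 → 0 ≤ κ → (κ < q ∨ q = 1 ∧ κ ≤ 1) → ∃ c₀ : ℝ, 0 < c₀ ∧
    ∀ (T : ℝ) (u : ℝ → V → V) (p : ℝ → V → ℝ), BSol 1 T u p →
      (∀ a b : ℝ, 0 < a → b < T → (∀ i n, Hn n (Icc a b) fun t x => u t x i) ∧
        Hn 1 (Icc a b) p) →
      ∀ (T₁ A R : ℝ) (c c' : ℝ → ℝ), 0 ≤ T₁ → T₁ < T → 0 ≤ A → 0 < R →
      ContinuousOn c (Ico T₁ T) → (∀ t ∈ Ico T₁ T, 0 ≤ c t) →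
      (∀ t ∈ Ioo T₁ T, HasDerivAt c (c' t) t) →
      (∀ s t, T₁ ≤ s → s < t → t < T →
        ∫ r in s..t, c r ^ q ≤ (A + c₀ * ℓ (t - s) ^ (1 - q / 2)) * (t - s) ^ (1 - q / 2)) →
      (∀ t ∈ Ioo T₁ T, ∀ x, 0 < sg x → sg x < R ^ 2 →
        c t * √(sg x) < rd (w (u t)) x → κ + rd (w (u t)) x < w (u t) x →
        (∀ y, sg y ≤ sg x → w (u t) y ≤ w (u t) x) →
        rd (p t) x ≤ (circ (u t) x ^ 2 + w (u t) x * (w (u t) x - rd (w (u t)) x)
          + rd (w (u t)) x) / sg x + c' t * √(sg x)) →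
      ∃ U : ℝ, ∀ t ∈ Ico 0 T, ∀ x, ‖u t x‖ ≤ U := by
  intro q κ hq hq2 hκ0 hκ
  obtain ⟨c₀, hc₀, H⟩ := Pool.Agent.X96.AT.regQ hq hq2 hκ0 hκ
  refine ⟨c₀, hc₀, ?_⟩
  intro T u p h hn T₁ A R c c' hT₁ hT₁T hA hR hcc hc0 hcd hcM hp
  have hw : ∀ v : V → V, w v = fun x => (-1 : ℝ) * Pool.Agent.X96.AX.rad v x := by
    intro v
    funext x
    unfold w Pool.Agent.X96.AX.rad
    ring
  have hpd : ∀ (v : V → V) (j : Fin 3) (x : V),
      pd j (w v) x = -pd j (Pool.Agent.X96.AX.rad v) x := by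
    intro v j x
    rw [hw v, Pool.Agent.TH305.DR.pd_cmul]
    ring
  have hrd : ∀ (v : V → V) (x : V),
      rd (w v) x = -Pool.Agent.X96.AT.rd (Pool.Agent.X96.AX.rad v) x := by
    intro v x
    unfold rd Pool.Agent.X96.AT.rd
    rw [hpd, hpd]
    ring
  refine H T u p ⟨⟨h, fun a b ha hb i n => ((hn a b ha hb).1 i n).hb⟩,
    fun a b ha hb => (hn a b ha hb).2.hb⟩ T₁ A R c c' hT₁ hT₁T hA hR hcc hc0 hcd hcM
    fun t ht x hx hx2 _ hx4 hx5 hx6 => ?_
  have hwy : ∀ y, w (u t) y = -Pool.Agent.X96.AX.rad (u t) y := fun y => rfl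
  have hwx := hwy x
  have h1 := hp t ht x hx hx2 (by rw [hrd]; exact hx4) (by rw [hrd, hwx]; linarith)
    (fun y hy => by rw [hwy, hwy]; linarith [hx6 y hy])
  rw [hrd, hwx] at h1
  refine h1.trans (le_of_eq ?_)
  ring

end Pool.Agent.Results.MP_09540e_an.PressureRegularity
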